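import Mathlib

set_option autoImplicit false

namespace Pool.Agent.Helper87.GraphSML

/-- A finite union of arithmetic progressions (common difference zero allowed). -/
def FinAP (S : Set ℕ) : Prop :=
  ∃ T : Finset (ℕ × ℕ), S = {n : ℕ | ∃ t ∈ T, ∃ k : ℕ, n = t.1 + t.2 * k}

/-- Eventual periodicity. -/
def EvPer (S : Set ℕ) : Prop := ∃ L n₀ : ℕ, 0 < L ∧ ∀ n, n₀ ≤ n → (n + L ∈ S ↔ n ∈ S)

lemma EvPer.mul {S : Set ℕ} {L n₀ : ℕ} (h : ∀ n, n₀ ≤ n → (n + L ∈ S ↔ n ∈ S)) (m : ℕ) :
    ∀ n, n₀ ≤ n → (n + L * m ∈ S ↔ n ∈ S) := by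
  induction m with
  | zero => intro n _; simp
  | succ m ih =>
    intro n hn
    have e : n + L * (m + 1) = (n + L * m) + L := by ring
    rw [e, h _ (by omega), ih n hn]

lemma FinAP.evPer {S : Set ℕ} (h : FinAP S) : EvPer S := by
  classical
  obtain ⟨T, rfl⟩ := h
  refine ⟨∏ t ∈ T, (if t.2 = 0 then 1 else t.2), (T.sup fun t => t.1) + 1, ?_, ?_⟩
  · apply Finset.prod_pos
    intro t _
    split_ifs <;> omega
  · intro n hn
    constructor
    · rintro ⟨t, ht, k, hk⟩
      have ht1 : t.1 ≤ T.sup fun t => t.1 := Finset.le_sup (f := fun t : ℕ × ℕ => t.1) ht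
      have hpos : 0 < ∏ t ∈ T, (if t.2 = 0 then 1 else t.2) := by
        apply Finset.prod_pos
        intro t _
        split_ifs <;> omega
      by_cases h0 : t.2 = 0
      · rw [h0] at hk; omega
      · have hdvd : t.2 ∣ ∏ t ∈ T, (if t.2 = 0 then 1 else t.2) := by
          have := Finset.dvd_prod_of_mem (fun t : ℕ × ℕ => if t.2 = 0 then 1 else t.2) ht
          simpa [h0] using this
        obtain ⟨c, hc⟩ := hdvd
        rw [hc] at hk
        refine ⟨t, ht, k - c, ?_⟩
        have h1 : t.2 * c ≤ t.2 * k := by omega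
        have h2 : c ≤ k := Nat.le_of_mul_le_mul_left h1 (by omega)
        rw [Nat.mul_sub]
        omega
    · rintro ⟨t, ht, k, hk⟩
      have ht1 : t.1 ≤ T.sup fun t => t.1 := Finset.le_sup (f := fun t : ℕ × ℕ => t.1) ht
      by_cases h0 : t.2 = 0
      · rw [h0] at hk; omega
      · have hdvd : t.2 ∣ ∏ t ∈ T, (if t.2 = 0 then 1 else t.2) := by
          have := Finset.dvd_prod_of_mem (fun t : ℕ × ℕ => if t.2 = 0 then 1 else t.2) ht
          simpa [h0] using this
        obtain ⟨c, hc⟩ := hdvd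
        refine ⟨t, ht, k + c, ?_⟩
        rw [hc, hk]
        ring

lemma EvPer.finAP {S : Set ℕ} (h : EvPer S) : FinAP S := by
  classical
  obtain ⟨L, n₀, hL, h⟩ := h
  refine ⟨((Finset.range n₀).filter (· ∈ S)).image (fun n => (n, 0)) ∪
    ((Finset.Ico n₀ (n₀ + L)).filter (· ∈ S)).image (fun n => (n, L)), ?_⟩
  ext n
  constructor
  · intro hn
    by_cases hlt : n < n₀
    · refine ⟨(n, 0), ?_, 0, by simp⟩
      rw [Finset.mem_union, Finset.mem_image]
      exact Or.inl ⟨n, by simp [hlt, hn], rfl⟩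
    · push Not at hlt
      set r := n₀ + (n - n₀) % L with hr
      have hrlt : (n - n₀) % L < L := Nat.mod_lt _ hL
      have hnr : n = r + L * ((n - n₀) / L) := by
        have := Nat.mod_add_div (n - n₀) L
        omega
      have hrS : r ∈ S := by
        rw [← EvPer.mul h ((n - n₀) / L) r (by omega), ← hnr]
        exact hn
      refine ⟨(r, L), ?_, (n - n₀) / L, hnr⟩
      rw [Finset.mem_union, Finset.mem_image, Finset.mem_image]
      refine Or.inr ⟨r, ?_, rfl⟩
      rw [Finset.mem_filter, Finset.mem_Ico]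
      exact ⟨⟨by omega, by omega⟩, hrS⟩
  · rintro ⟨t, ht, k, hk⟩
    rw [Finset.mem_union, Finset.mem_image, Finset.mem_image] at ht
    rcases ht with ⟨m, hm, rfl⟩ | ⟨m, hm, rfl⟩
    · rw [Finset.mem_filter] at hm
      simp only [zero_mul, add_zero] at hk
      rw [hk]; exact hm.2
    · rw [Finset.mem_filter, Finset.mem_Ico] at hm
      simp only at hk
      rw [hk, EvPer.mul h k m hm.1.1]
      exact hm.2

lemma finAP_iff {S : Set ℕ} : FinAP S ↔ EvPer S := ⟨FinAP.evPer, EvPer.finAP⟩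

lemma FinAP.inter {S S' : Set ℕ} (h : FinAP S) (h' : FinAP S') : FinAP (S ∩ S') := by
  obtain ⟨L, n₀, hL, h⟩ := h.evPer
  obtain ⟨L', n₀', hL', h'⟩ := h'.evPer
  refine EvPer.finAP ⟨L * L', max n₀ n₀', Nat.mul_pos hL hL', fun n hn => ?_⟩
  have h1 := EvPer.mul h L' n (by omega)
  have h2 := EvPer.mul h' L n (by omega)
  rw [Set.mem_inter_iff, Set.mem_inter_iff, h1, mul_comm L L', h2]

lemma finAP_univ : FinAP Set.univ := EvPer.finAP ⟨1, 0, one_pos, fun n _ => by simp⟩

lemma FinAP.biInter {ι : Type} (s : Finset ι) (S : ι → Set ℕ) (h : ∀ i ∈ s, FinAP (S i)) :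
    FinAP (⋂ i ∈ s, S i) := by
  classical
  induction s using Finset.induction_on with
  | empty => simpa using finAP_univ
  | insert j s hj ih =>
    rw [Finset.set_biInter_insert]
    exact (h j (Finset.mem_insert_self j s)).inter
      (ih fun i hi => h i (Finset.mem_insert_of_mem hi))

/-- Preimage under an affine map. -/
lemma FinAP.comp {S : Set ℕ} (h : FinAP S) (T p : ℕ) (hT : 0 < T) :
    FinAP {n | n * T + p ∈ S} := by
  obtain ⟨L, n₀, hL, h⟩ := h.evPer
  refine EvPer.finAP ⟨L, n₀, hL, fun n hn => ?_⟩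
  show (n + L) * T + p ∈ S ↔ n * T + p ∈ S
  have e : (n + L) * T + p = (n * T + p) + L * T := by ring
  rw [e]
  apply EvPer.mul h
  nlinarith

end Pool.Agent.Helper87.GraphSML
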