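import Mathlib

set_option autoImplicit false

namespace Pool.Agent.Helper87.GraphSML

/-- `a` satisfies `a (n + k) = ∑ a (n + i) a (n + j)`, the sum over the edges `{i, j}` of a finite
graph on `{0, …, k - 1}`. -/
def IsGraphRec (k : ℕ) (E : Finset (ℕ × ℕ)) (a : ℕ → ℂ) : Prop :=
  (∀ e ∈ E, e.1 < e.2 ∧ e.2 < k) ∧ ∀ n, a (n + k) = ∑ e ∈ E, a (n + e.1) * a (n + e.2)

/-- Sums of two powers of three determine the exponents. -/
lemma sidon {a j b i : ℕ} (h : 3 ^ a + 3 ^ j = 3 ^ b + 3 ^ i) : (a = b ∧ j = i) ∨ (a = i ∧ j = b) := by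
  have key : ∀ a j b i : ℕ, j ≤ a → i ≤ b → 3 ^ a + 3 ^ j = 3 ^ b + 3 ^ i → a = b ∧ j = i := by
    intro a j b i hja hib h
    have h1 : 3 ^ j ≤ 3 ^ a := Nat.pow_le_pow_right (by norm_num) hja
    have h2 : 3 ^ i ≤ 3 ^ b := Nat.pow_le_pow_right (by norm_num) hib
    have hab : a = b := by
      rcases lt_trichotomy a b with hlt | heq | hlt
      · have h3 : 3 ^ (a + 1) ≤ 3 ^ b := Nat.pow_le_pow_right (by norm_num) hlt
        rw [pow_succ] at h3
        have h4 : 0 < 3 ^ i := by positivity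
        have h5 : 0 < 3 ^ a := by positivity
        omega
      · exact heq
      · have h3 : 3 ^ (b + 1) ≤ 3 ^ a := Nat.pow_le_pow_right (by norm_num) hlt
        rw [pow_succ] at h3
        have h4 : 0 < 3 ^ j := by positivity
        have h5 : 0 < 3 ^ b := by positivity
        omega
    subst hab
    refine ⟨rfl, ?_⟩
    have : 3 ^ j = 3 ^ i := by omega
    exact Nat.pow_right_injective (le_refl 2 |>.trans (by norm_num)) this
  rcases le_total j a with h1 | h1 <;> rcases le_total i b with h2 | h2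
  · exact Or.inl (key a j b i h1 h2 h)
  · have := key a j i b h1 h2 (by omega)
    exact Or.inr this
  · have := key j a b i h1 h2 (by omega)
    exact Or.inr ⟨this.2, this.1⟩
  · have := key j a i b h1 h2 (by omega)
    exact Or.inl ⟨this.2, this.1⟩

/-- The serial sequence: item `r` of block `m` sits at time `m T + 3 ^ r`. -/
noncomputable def serial (R T : ℕ) (v : ℕ → ℕ → ℂ) (t : ℕ) : ℂ := by
  classical
  exact if h : ∃ r, r < R ∧ t % T = 3 ^ r then v h.choose (t / T) else 0

lemma serial_at {R T : ℕ} (v : ℕ → ℕ → ℂ) (hT : ∀ r < R, 3 ^ r < T) (m r : ℕ) (hr : r < R) :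
    serial R T v (m * T + 3 ^ r) = v r m := by
  have hTr := hT r hr
  have hmod : (m * T + 3 ^ r) % T = 3 ^ r := by
    rw [mul_comm, Nat.mul_add_mod, Nat.mod_eq_of_lt hTr]
  have hdiv : (m * T + 3 ^ r) / T = m := by
    rw [mul_comm, Nat.mul_add_div (by omega)]
    rw [Nat.div_eq_of_lt hTr, add_zero]
  have h : ∃ r', r' < R ∧ (m * T + 3 ^ r) % T = 3 ^ r' := ⟨r, hr, hmod⟩
  rw [serial, dif_pos h]
  have h1 := h.choose_spec
  have h2 : h.choose = r := by
    have h3 := hmod.symm.trans h1.2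
    exact (Nat.pow_right_injective (le_refl 2 |>.trans (by norm_num)) h3).symm
  rw [h2, hdiv]

lemma serial_ne {R T : ℕ} (v : ℕ → ℕ → ℂ) {t : ℕ} (h : serial R T v t ≠ 0) :
    ∃ r, r < R ∧ t % T = 3 ^ r := by
  by_contra hne
  exact h (by rw [serial, dif_neg hne])

/-- **Serialisation.** A finite system of values, each one a sum of products of two different values
of the same block (listed earlier) or of the previous block, is carried by one graph recurrence. -/
theorem serialise (R : ℕ) (v : ℕ → ℕ → ℂ) (δ : ℕ → ℕ) (E : ℕ → Finset (ℕ × ℕ))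
    (hδ : ∀ r < R, δ r ≤ 1)
    (hE : ∀ r < R, ∀ e ∈ E r, e.1 < e.2 ∧ e.2 < R ∧ (δ r = 0 → e.2 < r))
    (hv : ∀ r < R, ∀ n, v r (n + δ r) = ∑ e ∈ E r, v e.1 n * v e.2 n) :
    ∃ (k : ℕ) (F : Finset (ℕ × ℕ)) (a : ℕ → ℂ) (T : ℕ), IsGraphRec k F a ∧ 0 < T ∧
      ∀ r < R, ∀ n, a (n * T + 3 ^ r) = v r n := by
  classical
  set T : ℕ := 3 ^ (R + 1) with hTdef
  have hTpos : 0 < T := by positivity
  have hpow : ∀ r < R, 3 * 3 ^ r ≤ 3 ^ R := by
    intro r hr
    have : 3 ^ (r + 1) ≤ 3 ^ R := Nat.pow_le_pow_right (by norm_num) hr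
    rw [pow_succ] at this
    omega
  have hT3 : T = 3 * 3 ^ R := by rw [hTdef, pow_succ]; ring
  have hT : ∀ r < R, 3 ^ r < T := by
    intro r hr
    have := hpow r hr
    have h1 : 0 < 3 ^ r := by positivity
    omega
  -- the edge attached to an instruction
  obtain ⟨lag, hlagdef⟩ : ∃ lag : ℕ → ℕ → ℕ, ∀ r i, 3 ^ i ≤ δ r * T + 3 ^ r →
      lag r i + 3 ^ i = δ r * T + 3 ^ r :=
    ⟨fun r i => δ r * T + 3 ^ r - 3 ^ i, fun r i h => Nat.sub_add_cancel h⟩
  let edge : ℕ → ℕ × ℕ → ℕ × ℕ := fun r e => (2 * T - lag r e.1, 2 * T - lag r e.2)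
  set F : Finset (ℕ × ℕ) := (Finset.range R).biUnion (fun r => (E r).image (edge r)) with hF
  set a : ℕ → ℂ := serial R T v with ha
  -- basic facts on lags
  have hlag0 : ∀ r < R, ∀ e ∈ E r, 3 ^ e.1 < 3 ^ e.2 ∧ 3 ^ e.2 < δ r * T + 3 ^ r ∧
      δ r * T + 3 ^ r < 2 * T := by
    intro r hr e he
    obtain ⟨h1, h2, h3⟩ := hE r hr e he
    refine ⟨Nat.pow_lt_pow_right (by norm_num) h1, ?_, ?_⟩
    · have hd := hδ r hr
      have h4 : 0 < 3 ^ r := by positivity
      rcases Nat.eq_zero_or_pos (δ r) with h0 | h0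
      · rw [h0]
        have := Nat.pow_lt_pow_right (a := 3) (by norm_num) (h3 h0)
        omega
      · have hd1 : δ r = 1 := by omega
        rw [hd1]
        have := hT e.2 h2
        omega
    · have hd := hδ r hr
      have := hT r hr
      nlinarith
  have hlag : ∀ r < R, ∀ e ∈ E r, 3 ^ e.1 < 3 ^ e.2 ∧ lag r e.1 + 3 ^ e.1 = δ r * T + 3 ^ r ∧
      lag r e.2 + 3 ^ e.2 = δ r * T + 3 ^ r ∧ 0 < lag r e.2 ∧ lag r e.1 < 2 * T := by
    intro r hr e he
    obtain ⟨h1, h2, h3⟩ := hlag0 r hr e he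
    have e1 := hlagdef r e.1 (by omega)
    have e2 := hlagdef r e.2 (by omega)
    have p1 : 0 < 3 ^ e.1 := by positivity
    have p2 : 0 < 3 ^ e.2 := by positivity
    refine ⟨h1, e1, e2, by omega, by omega⟩
  refine ⟨2 * T, F, a, T, ⟨?_, ?_⟩, hTpos, fun r hr n => serial_at v hT n r hr⟩
  · intro e' he'
    rw [hF, Finset.mem_biUnion] at he'
    obtain ⟨r, hr, he'⟩ := he'
    rw [Finset.mem_range] at hr
    rw [Finset.mem_image] at he'
    obtain ⟨e, he, rfl⟩ := he'
    obtain ⟨h1, h2, h3, h4, h5⟩ := hlag r hr e he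
    simp only [edge]
    constructor
    · omega
    · omega
  · intro n
    -- nonzero products only at the right phase
    have hkey : ∀ r < R, ∀ e ∈ E r, a (n + (edge r e).1) * a (n + (edge r e).2) ≠ 0 →
        (n + 2 * T) % T = 3 ^ r := by
      intro r hr e he hne
      obtain ⟨h1, h2, h3, h4, h5⟩ := hlag r hr e he
      obtain ⟨g1, g2, _⟩ := hE r hr e he
      have hne1 : a (n + (edge r e).1) ≠ 0 := left_ne_zero_of_mul hne
      have hne2 : a (n + (edge r e).2) ≠ 0 := right_ne_zero_of_mul hne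
      obtain ⟨x, hx, hxm⟩ := serial_ne v hne1
      obtain ⟨y, hy, hym⟩ := serial_ne v hne2
      simp only [edge] at hxm hym
      -- congruences
      have c1 : (n + 2 * T) + 3 ^ e.1 ≡ 3 ^ x + 3 ^ r + δ r * T [MOD T] := by
        have : (n + 2 * T) + 3 ^ e.1 =
            (n + (2 * T - lag r e.1)) + (δ r * T + 3 ^ r) := by omega
        rw [this]
        have h6 : n + (2 * T - lag r e.1) ≡ 3 ^ x [MOD T] := by
          rw [Nat.ModEq, hxm, Nat.mod_eq_of_lt (hT x hx)]
        have := h6.add_right (δ r * T + 3 ^ r)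
        convert this using 1
        ring
      have c2 : (n + 2 * T) + 3 ^ e.2 ≡ 3 ^ y + 3 ^ r + δ r * T [MOD T] := by
        have : (n + 2 * T) + 3 ^ e.2 =
            (n + (2 * T - lag r e.2)) + (δ r * T + 3 ^ r) := by omega
        rw [this]
        have h6 : n + (2 * T - lag r e.2) ≡ 3 ^ y [MOD T] := by
          rw [Nat.ModEq, hym, Nat.mod_eq_of_lt (hT y hy)]
        have := h6.add_right (δ r * T + 3 ^ r)
        convert this using 1
        ring
      -- combine
      have c3 : (3 ^ x + 3 ^ e.2) + (3 ^ r + δ r * T + (n + 2 * T)) ≡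
          (3 ^ y + 3 ^ e.1) + (3 ^ r + δ r * T + (n + 2 * T)) [MOD T] := by
        have h5 := (c1.symm.add_right (3 ^ e.2))
        have h6 := (c2.symm.add_right (3 ^ e.1))
        have h7 : 3 ^ x + 3 ^ r + δ r * T + 3 ^ e.2 ≡ 3 ^ y + 3 ^ r + δ r * T + 3 ^ e.1 [MOD T] := by
          refine h5.trans (Nat.ModEq.trans ?_ h6.symm)
          rw [show n + 2 * T + 3 ^ e.1 + 3 ^ e.2 = n + 2 * T + 3 ^ e.2 + 3 ^ e.1 by ring]
        have h8 := h7.add_right (n + 2 * T)
        convert h8 using 1 <;> ring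
      have c4 : 3 ^ x + 3 ^ e.2 ≡ 3 ^ y + 3 ^ e.1 [MOD T] := Nat.ModEq.add_right_cancel' _ c3
      have hxR := hpow x hx
      have hyR := hpow y hy
      have heR := hpow e.2 g2
      have he1R := hpow e.1 (by omega)
      have c5 : 3 ^ x + 3 ^ e.2 = 3 ^ y + 3 ^ e.1 := by
        rw [Nat.ModEq, Nat.mod_eq_of_lt (by omega), Nat.mod_eq_of_lt (by omega)] at c4
        exact c4
      have hxe : x = e.1 := by
        rcases sidon c5 with ⟨_, h9⟩ | ⟨h9, _⟩
        · omega
        · exact h9
      -- hence the phase is right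
      rw [hxe] at c1
      have c6 : (n + 2 * T) + 3 ^ e.1 ≡ (3 ^ r + δ r * T) + 3 ^ e.1 [MOD T] := by
        convert c1 using 1
        ring
      have c7 : n + 2 * T ≡ 3 ^ r + δ r * T [MOD T] := Nat.ModEq.add_right_cancel' _ c6
      rw [Nat.ModEq] at c7
      rw [c7, Nat.add_mul_mod_self_right, Nat.mod_eq_of_lt (hT r hr)]
    have hmod2 : (n + 2 * T) % T = n % T := by
      rw [mul_comm, Nat.add_mul_mod_self_left]
    by_cases hph : ∃ r, r < R ∧ (n + 2 * T) % T = 3 ^ r
    · obtain ⟨r, hr, hrm⟩ := hph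
      -- only edges of item `r` contribute
      have h1 : ∑ e ∈ F, a (n + e.1) * a (n + e.2) =
          ∑ e ∈ (E r).image (edge r), a (n + e.1) * a (n + e.2) := by
        symm
        apply Finset.sum_subset
        · intro e he
          rw [hF, Finset.mem_biUnion]
          exact ⟨r, Finset.mem_range.mpr hr, he⟩
        · intro e' he' hne'
          by_contra hne
          rw [hF, Finset.mem_biUnion] at he'
          obtain ⟨r', hr', he'⟩ := he'
          rw [Finset.mem_range] at hr'
          rw [Finset.mem_image] at he'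
          obtain ⟨e, he, rfl⟩ := he'
          have h2 := hkey r' hr' e he hne
          rw [hrm] at h2
          have h3 : r = r' := Nat.pow_right_injective (le_refl 2 |>.trans (by norm_num)) h2
          subst h3
          exact hne' (Finset.mem_image_of_mem _ he)
      have h2 : ∑ e ∈ (E r).image (edge r), a (n + e.1) * a (n + e.2) =
          ∑ e ∈ E r, a (n + (edge r e).1) * a (n + (edge r e).2) := by
        apply Finset.sum_image
        intro e he e' he' hee
        obtain ⟨h1, h2, h3, h4, h5⟩ := hlag r hr e he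
        obtain ⟨h1', h2', h3', h4', h5'⟩ := hlag r hr e' he'
        simp only [edge, Prod.mk.injEq] at hee
        have e1 : 3 ^ e.1 = 3 ^ e'.1 := by omega
        have e2 : 3 ^ e.2 = 3 ^ e'.2 := by omega
        exact Prod.ext (Nat.pow_right_injective (le_refl 2 |>.trans (by norm_num)) e1)
          (Nat.pow_right_injective (le_refl 2 |>.trans (by norm_num)) e2)
      rw [h1, h2]
      -- write `n + 2 T = m T + 3 ^ r`
      obtain ⟨m, hm, hm2⟩ : ∃ m, n + 2 * T = m * T + 3 ^ r ∧ 2 ≤ m := by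
        refine ⟨(n + 2 * T) / T, ?_, ?_⟩
        · have := Nat.div_add_mod (n + 2 * T) T
          rw [hrm, mul_comm] at this
          exact this.symm
        · rw [Nat.le_div_iff_mul_le hTpos]; omega
      obtain ⟨m', rfl⟩ : ∃ m', m = m' + δ r := ⟨m - δ r, by have := hδ r hr; omega⟩
      rw [hm, ha, serial_at v hT _ r hr, hv r hr m']
      apply Finset.sum_congr rfl
      intro e he
      obtain ⟨h1, h2, h3, h4, h5⟩ := hlag r hr e he
      obtain ⟨g1, g2, _⟩ := hE r hr e he
      have e1 : n + (edge r e).1 = m' * T + 3 ^ e.1 := by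
        simp only [edge]
        have : (m' + δ r) * T = m' * T + δ r * T := by ring
        rw [this] at hm
        omega
      have e2 : n + (edge r e).2 = m' * T + 3 ^ e.2 := by
        simp only [edge]
        have : (m' + δ r) * T = m' * T + δ r * T := by ring
        rw [this] at hm
        omega
      rw [e1, e2, serial_at v hT _ _ (by omega), serial_at v hT _ _ g2]
    · have h0 : a (n + 2 * T) = 0 := by
        by_contra hne
        exact hph (serial_ne v hne)
      rw [h0]
      symm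
      apply Finset.sum_eq_zero
      intro e' he'
      by_contra hne
      rw [hF, Finset.mem_biUnion] at he'
      obtain ⟨r', hr', he'⟩ := he'
      rw [Finset.mem_range] at hr'
      rw [Finset.mem_image] at he'
      obtain ⟨e, he, rfl⟩ := he'
      exact hph ⟨r', hr', hkey r' hr' e he hne⟩

end Pool.Agent.Helper87.GraphSML
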