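import Mathlib
import Pool.Agent.Helper87.GraphSML.AP
import Pool.Agent.Helper87.GraphSML.Serial

set_option autoImplicit false

namespace Pool.Agent.Helper87.GraphSML

open MvPolynomial

/-- Every entry of the list from index `m` on is a sum of products of two different earlier
entries. -/
def Ext (m : ℕ) (l : List (ℕ → ℂ)) : Prop :=
  ∀ r, m ≤ r → r < l.length → ∃ E : Finset (ℕ × ℕ), (∀ e ∈ E, e.1 < e.2 ∧ e.2 < r) ∧
    ∀ n, (l.getD r 0) n = ∑ e ∈ E, (l.getD e.1 0) n * (l.getD e.2 0) n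

lemma getD_append_lt (l l' : List (ℕ → ℂ)) {r : ℕ} (hr : r < l.length) :
    (l ++ l').getD r 0 = l.getD r 0 := by
  rw [List.getD_append _ _ _ _ hr]

lemma getD_append_len (l : List (ℕ → ℂ)) (w : ℕ → ℂ) : (l ++ [w]).getD l.length 0 = w := by
  rw [List.getD_append_right _ _ _ _ le_rfl]
  simp

lemma Ext.append {m : ℕ} {l : List (ℕ → ℂ)} (h : Ext m l) (w : ℕ → ℂ) (E : Finset (ℕ × ℕ))
    (hE : ∀ e ∈ E, e.1 < e.2 ∧ e.2 < l.length)
    (hw : ∀ n, w n = ∑ e ∈ E, (l.getD e.1 0) n * (l.getD e.2 0) n) : Ext m (l ++ [w]) := by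
  intro r hmr hr
  rw [List.length_append, List.length_singleton] at hr
  by_cases hrl : r < l.length
  · obtain ⟨E', hE', hw'⟩ := h r hmr hrl
    refine ⟨E', hE', fun n => ?_⟩
    rw [getD_append_lt l [w] hrl, hw' n]
    apply Finset.sum_congr rfl
    intro e he
    obtain ⟨h1, h2⟩ := hE' e he
    rw [getD_append_lt l [w] (by omega), getD_append_lt l [w] (by omega)]
  · have hrl' : r = l.length := by omega
    subst hrl'
    refine ⟨E, hE, fun n => ?_⟩
    rw [getD_append_len, hw n]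
    apply Finset.sum_congr rfl
    intro e he
    obtain ⟨h1, h2⟩ := hE e he
    rw [getD_append_lt l [w] (by omega), getD_append_lt l [w] (by omega)]

/-- The list starts with two constant ones. -/
def Ones (l : List (ℕ → ℂ)) : Prop := 2 ≤ l.length ∧ l.getD 0 0 = 1 ∧ l.getD 1 0 = 1

lemma Ones.append {l : List (ℕ → ℂ)} (h : Ones l) (l' : List (ℕ → ℂ)) : Ones (l ++ l') := by
  obtain ⟨h1, h2, h3⟩ := h
  refine ⟨by rw [List.length_append]; omega, ?_, ?_⟩
  · rw [getD_append_lt l l' (by omega), h2]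
  · rw [getD_append_lt l l' (by omega), h3]

lemma Ones.ofPre {l l' : List (ℕ → ℂ)} (h : Ones l) (hl : l <+: l') : Ones l' := by
  obtain ⟨t, rfl⟩ := hl
  exact h.append t

lemma index_of_mem {l : List (ℕ → ℂ)} (h : Ones l) {w : ℕ → ℂ} (hw : w ∈ l) :
    ∃ i, 1 ≤ i ∧ i < l.length ∧ l.getD i 0 = w := by
  obtain ⟨i, hi, rfl⟩ := List.getElem_of_mem hw
  rcases Nat.eq_zero_or_pos i with h0 | h0
  · subst h0
    refine ⟨1, le_rfl, by have := h.1; omega, ?_⟩
    rw [h.2.2, ← h.2.1, List.getD_eq_getElem _ _ hi]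
  · exact ⟨i, h0, hi, List.getD_eq_getElem _ _ hi⟩

/-- Append a copy. -/
lemma Ext.copy {m : ℕ} {l : List (ℕ → ℂ)} (h : Ext m l) (ho : Ones l) {w : ℕ → ℂ} (hw : w ∈ l) :
    Ext m (l ++ [w]) := by
  obtain ⟨i, hi1, hi, hiw⟩ := index_of_mem ho hw
  refine h.append w {(0, i)} ?_ ?_
  · intro e he
    rw [Finset.mem_singleton] at he
    subst he
    exact ⟨hi1, hi⟩
  · intro n
    rw [Finset.sum_singleton]
    simp only
    rw [ho.2.1, hiw]
    simp

/-- Append a product. -/
lemma Ext.mul {m : ℕ} {l : List (ℕ → ℂ)} (h : Ext m l) (ho : Ones l) {w w' : ℕ → ℂ} (hw : w ∈ l)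
    (hw' : w' ∈ l) : Ext m (l ++ [w] ++ [w * w']) := by
  obtain ⟨i, hi1, hi, hiw⟩ := index_of_mem ho hw'
  refine (h.copy ho hw).append (w * w') {(i, l.length)} ?_ ?_
  · intro e he
    rw [Finset.mem_singleton] at he
    subst he
    simp [hi]
  · intro n
    rw [Finset.sum_singleton]
    simp only
    rw [getD_append_lt l [w] hi, hiw, getD_append_len]
    simp [mul_comm]

/-- Append a sum. -/
lemma Ext.add {m : ℕ} {l : List (ℕ → ℂ)} (h : Ext m l) (ho : Ones l) {w w' : ℕ → ℂ} (hw : w ∈ l)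
    (hw' : w' ∈ l) : Ext m (l ++ [w] ++ [w'] ++ [w + w']) := by
  have h1 := h.copy ho hw
  have ho1 := ho.append [w]
  have h2 := h1.copy ho1 (w := w') (by simp [hw'])
  have ho2 := ho1.append [w']
  have hlen := ho.1
  refine h2.append (w + w') {(0, l.length), (0, l.length + 1)} ?_ ?_
  · intro e he
    rw [Finset.mem_insert, Finset.mem_singleton] at he
    rcases he with rfl | rfl
    · simp; omega
    · simp
  · intro n
    rw [Finset.sum_pair (by simp)]
    simp only
    rw [ho2.2.1]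
    have e1 : (l ++ [w] ++ [w']).getD l.length 0 = w := by
      rw [getD_append_lt (l ++ [w]) [w'] (by simp), getD_append_len]
    have e2 : (l ++ [w] ++ [w']).getD (l.length + 1) 0 = w' := by
      have := getD_append_len (l ++ [w]) w'
      simpa using this
    rw [e1, e2]
    simp

variable {σ : Type}

/-- Every polynomial can be reached by a straight-line program from enough constants. -/
lemma reach (u : ℕ → σ → ℂ) (q : MvPolynomial σ ℂ) : ∃ S : Finset ℂ,
    ∀ (m : ℕ) (l : List (ℕ → ℂ)), Ext m l → Ones l → (∀ c ∈ S, (fun _ => c : ℕ → ℂ) ∈ l) →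
      (∀ j, (fun n => u n j : ℕ → ℂ) ∈ l) →
      ∃ l', l <+: l' ∧ Ext m l' ∧ (fun n => eval (u n) q : ℕ → ℂ) ∈ l' := by
  classical
  induction q using MvPolynomial.induction_on with
  | C c =>
    refine ⟨{c}, fun m l h ho hS hX => ⟨l, List.prefix_rfl, h, ?_⟩⟩
    simpa using hS c (Finset.mem_singleton_self c)
  | add p q hp hq =>
    obtain ⟨S₁, h₁⟩ := hp
    obtain ⟨S₂, h₂⟩ := hq
    refine ⟨S₁ ∪ S₂, fun m l h ho hS hX => ?_⟩
    obtain ⟨l₁, hl₁, hE₁, hm₁⟩ := h₁ m l h ho (fun c hc => hS c (Finset.mem_union_left _ hc)) hX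
    obtain ⟨l₂, hl₂, hE₂, hm₂⟩ := h₂ m l₁ hE₁ (ho.ofPre hl₁)
      (fun c hc => hl₁.subset (hS c (Finset.mem_union_right _ hc))) (fun j => hl₁.subset (hX j))
    refine ⟨_, ?_, hE₂.add ((ho.ofPre hl₁).ofPre hl₂) (hl₂.subset hm₁) hm₂, ?_⟩
    · refine (hl₁.trans hl₂).trans ?_
      rw [List.append_assoc, List.append_assoc]
      exact List.prefix_append _ _
    · rw [List.mem_append]
      right
      rw [List.mem_singleton]
      funext n
      simp
  | mul_X p j hp =>
    obtain ⟨S₁, h₁⟩ := hp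
    refine ⟨S₁, fun m l h ho hS hX => ?_⟩
    obtain ⟨l₁, hl₁, hE₁, hm₁⟩ := h₁ m l h ho hS hX
    refine ⟨_, ?_, hE₁.mul (ho.ofPre hl₁) hm₁ (hl₁.subset (hX j)), ?_⟩
    · refine hl₁.trans ?_
      rw [List.append_assoc]
      exact List.prefix_append _ _
    · rw [List.mem_append]
      right
      rw [List.mem_singleton]
      funext n
      simp

/-- Several polynomials at once. -/
lemma reach_list (u : ℕ → σ → ℂ) (Q : List (MvPolynomial σ ℂ)) : ∃ S : Finset ℂ,
    ∀ (m : ℕ) (l : List (ℕ → ℂ)), Ext m l → Ones l → (∀ c ∈ S, (fun _ => c : ℕ → ℂ) ∈ l) →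
      (∀ j, (fun n => u n j : ℕ → ℂ) ∈ l) →
      ∃ l', l <+: l' ∧ Ext m l' ∧ ∀ q ∈ Q, (fun n => eval (u n) q : ℕ → ℂ) ∈ l' := by
  classical
  induction Q with
  | nil => exact ⟨∅, fun m l h _ _ _ => ⟨l, List.prefix_rfl, h, by simp⟩⟩
  | cons q Q ih =>
    obtain ⟨S₁, h₁⟩ := ih
    obtain ⟨S₂, h₂⟩ := reach u q
    refine ⟨S₁ ∪ S₂, fun m l h ho hS hX => ?_⟩
    obtain ⟨l₁, hl₁, hE₁, hm₁⟩ := h₁ m l h ho (fun c hc => hS c (Finset.mem_union_left _ hc)) hX
    obtain ⟨l₂, hl₂, hE₂, hm₂⟩ := h₂ m l₁ hE₁ (ho.ofPre hl₁)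
      (fun c hc => hl₁.subset (hS c (Finset.mem_union_right _ hc))) (fun j => hl₁.subset (hX j))
    refine ⟨l₂, hl₁.trans hl₂, hE₂, ?_⟩
    intro q' hq'
    rw [List.mem_cons] at hq'
    rcases hq' with rfl | hq'
    · exact hm₂
    · exact hl₂.subset (hm₁ q' hq')

/-- **Polynomial recursions are carried by graph recurrences.** -/
theorem poly_to_graph [Fintype σ] (H : σ → MvPolynomial σ ℂ) (u : ℕ → σ → ℂ)
    (hu : ∀ n j, u (n + 1) j = eval (u n) (H j)) (G : MvPolynomial σ ℂ) :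
    ∃ (k : ℕ) (F : Finset (ℕ × ℕ)) (a : ℕ → ℂ) (T p : ℕ), IsGraphRec k F a ∧ 0 < T ∧
      ∀ n, a (n * T + p) = eval (u n) G := by
  classical
  obtain ⟨S, hS⟩ := reach_list u (G :: (Finset.univ.toList.map H))
  set b : List (ℕ → ℂ) := 1 :: 1 :: (S.toList.map (fun c => (fun _ => c : ℕ → ℂ)) ++
    (Finset.univ : Finset σ).toList.map (fun j => (fun n => u n j : ℕ → ℂ))) with hb
  have hob : Ones b := ⟨by simp [hb], by simp [hb], by simp [hb]⟩
  have hEb : Ext b.length b := by
    intro r h1 h2; omega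
  obtain ⟨l, hbl, hEl, hml⟩ := hS b.length b hEb hob
    (by
      intro c hc
      rw [hb]
      simp only [List.mem_cons, List.mem_append, List.mem_map, Finset.mem_toList]
      exact Or.inr (Or.inr (Or.inl ⟨c, hc, rfl⟩)))
    (by
      intro j
      rw [hb]
      simp only [List.mem_cons, List.mem_append, List.mem_map, Finset.mem_toList]
      exact Or.inr (Or.inr (Or.inr ⟨j, Finset.mem_univ _, rfl⟩)))
  have hol : Ones l := hob.ofPre hbl
  -- shifted base sequences are available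
  have hshift : ∀ w ∈ b, (fun n => w (n + 1) : ℕ → ℂ) ∈ l := by
    intro w hw
    rw [hb] at hw
    simp only [List.mem_cons, List.mem_append, List.mem_map, Finset.mem_toList] at hw
    have h1 : (1 : ℕ → ℂ) ∈ l := hbl.subset (by rw [hb]; simp)
    rcases hw with rfl | rfl | ⟨c, hc, rfl⟩ | ⟨j, _, rfl⟩
    · exact h1
    · exact h1
    · apply hbl.subset
      rw [hb]
      simp only [List.mem_cons, List.mem_append, List.mem_map, Finset.mem_toList]
      exact Or.inr (Or.inr (Or.inl ⟨c, hc, rfl⟩))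
    · have h2 := hml (H j) (by simp)
      have h3 : (fun n => u (n + 1) j : ℕ → ℂ) = fun n => eval (u n) (H j) := by
        funext n; exact hu n j
      rw [h3]; exact h2
  -- the instructions
  have hinstr : ∀ r, ∃ E : Finset (ℕ × ℕ), r < l.length →
      (∀ e ∈ E, e.1 < e.2 ∧ e.2 < l.length ∧ ((if r < b.length then 1 else 0) = 0 → e.2 < r)) ∧
      ∀ n, (l.getD r 0) (n + (if r < b.length then 1 else 0)) =
        ∑ e ∈ E, (l.getD e.1 0) n * (l.getD e.2 0) n := by
    intro r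
    by_cases hr : r < l.length
    · by_cases hrb : r < b.length
      · have hlb : l.getD r 0 = b.getD r 0 := by
          obtain ⟨t, rfl⟩ := hbl
          exact getD_append_lt b t hrb
        have hwb : b.getD r 0 ∈ b := by
          rw [List.getD_eq_getElem _ _ hrb]
          exact List.getElem_mem hrb
        obtain ⟨i, hi1, hi, hiw⟩ := index_of_mem hol (hshift _ hwb)
        refine ⟨{(0, i)}, fun _ => ⟨?_, ?_⟩⟩
        · intro e he
          rw [Finset.mem_singleton] at he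
          subst he
          refine ⟨hi1, hi, ?_⟩
          rw [if_pos hrb]
          intro h; omega
        · intro n
          rw [Finset.sum_singleton, if_pos hrb]
          simp only
          rw [hol.2.1, hiw, hlb]
          simp
      · obtain ⟨E, hE1, hE2⟩ := hEl r (by omega) hr
        refine ⟨E, fun _ => ⟨?_, ?_⟩⟩
        · intro e he
          obtain ⟨h1, h2⟩ := hE1 e he
          exact ⟨h1, by omega, fun _ => h2⟩
        · intro n
          rw [if_neg hrb]
          exact hE2 n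
    · exact ⟨∅, fun h => absurd h hr⟩
  choose E hE using hinstr
  obtain ⟨k, F, a, T, ha, hT, hval⟩ := serialise l.length (fun r n => (l.getD r 0) n)
    (fun r => if r < b.length then 1 else 0) E
    (fun r _ => by split_ifs <;> omega)
    (fun r hr => (hE r hr).1) (fun r hr => (hE r hr).2)
  obtain ⟨i, _, hi, hiw⟩ := index_of_mem hol (hml G (by simp))
  refine ⟨k, F, a, T, 3 ^ i, ha, hT, fun n => ?_⟩
  rw [hval i hi n, hiw]

/-- Return sets of polynomial recursions, given the graph recurrences. -/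
theorem finAP_of_graph [Fintype σ]
    (hyp : ∀ (k : ℕ) (F : Finset (ℕ × ℕ)) (a : ℕ → ℂ), IsGraphRec k F a → FinAP {n | a n = 0})
    (H : σ → MvPolynomial σ ℂ) (u : ℕ → σ → ℂ)
    (hu : ∀ n j, u (n + 1) j = eval (u n) (H j)) (G : MvPolynomial σ ℂ) :
    FinAP {n | eval (u n) G = 0} := by
  obtain ⟨k, F, a, T, p, ha, hT, hval⟩ := poly_to_graph H u hu G
  have h1 := (hyp k F a ha).comp T p hT
  have h2 : {n | eval (u n) G = 0} = {n | n * T + p ∈ {t | a t = 0}} := by
    ext n
    simp only [Set.mem_ofPred_eq, hval n]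
  rw [h2]
  exact h1

end Pool.Agent.Helper87.GraphSML
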