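import Mathlib
import Pool.Agent.Helper87.GraphSML.Prog

set_option autoImplicit false

namespace Pool.Agent.Helper87.GraphSML

open MvPolynomial

lemma eval_smul_hom {σ : Type} [Fintype σ] {F : MvPolynomial σ ℂ} {d : ℕ} (hF : F.IsHomogeneous d)
    (c : ℂ) (x : σ → ℂ) : eval (c • x) F = c ^ d * eval x F := by
  rw [eval_eq', eval_eq', Finset.mul_sum]
  apply Finset.sum_congr rfl
  intro s hs
  have h1 : ∑ i, s i = d := by
    have := hF.degree_eq_sum_deg_support hs
    rw [this]
    symm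
    apply Finset.sum_subset (Finset.subset_univ _)
    intro i _ hi
    simpa using hi
  have h2 : ∏ i, (c • x) i ^ s i = c ^ d * ∏ i, x i ^ s i := by
    rw [← h1, ← Finset.prod_pow_eq_pow_sum, ← Finset.prod_mul_distrib]
    apply Finset.prod_congr rfl
    intro i _
    rw [Pi.smul_apply, smul_eq_mul, mul_pow]
  rw [h2]
  ring

/-- A countable family of nonzero coefficient vectors admits a common non-root on the moment curve. -/
lemma exists_generic {m : ℕ} (v : ℕ → Fin m → ℂ) (hv : ∀ n, v n ≠ 0) :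
    ∃ s : ℂ, ∀ n, ∑ j : Fin m, s ^ (j : ℕ) * v n j ≠ 0 := by
  classical
  let p : ℕ → Polynomial ℂ := fun n => ∑ j : Fin m, Polynomial.monomial (j : ℕ) (v n j)
  have hcoef : ∀ n (j : Fin m), (p n).coeff (j : ℕ) = v n j := by
    intro n j
    simp only [p, Polynomial.finsetSum_coeff, Polynomial.coeff_monomial]
    rw [Finset.sum_eq_single j]
    · simp
    · intro i _ hij
      rw [if_neg]
      intro h
      exact hij (Fin.ext h)
    · intro h; exact absurd (Finset.mem_univ j) h
  have hp : ∀ n, p n ≠ 0 := by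
    intro n h0
    apply hv n
    funext j
    rw [← hcoef n j, h0]
    simp
  have hcount : (⋃ n, {s : ℂ | (p n).eval s = 0}).Countable := by
    apply Set.countable_iUnion
    intro n
    have : {s : ℂ | (p n).eval s = 0} ⊆ ((p n).roots.toFinset : Set ℂ) := by
      intro s hs
      simp only [Finset.mem_coe, Multiset.mem_toFinset]
      rw [Polynomial.mem_roots (hp n)]
      exact hs
    exact (Finset.countable_toSet _).mono this
  obtain ⟨s, hs⟩ : ∃ s : ℂ, s ∉ ⋃ n, {s : ℂ | (p n).eval s = 0} := by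
    by_contra h
    push Not at h
    have : (Set.univ : Set ℂ).Countable := hcount.mono (fun s _ => h s)
    exact not_countable_complex this
  refine ⟨s, fun n hn => hs ?_⟩
  rw [Set.mem_iUnion]
  refine ⟨n, ?_⟩
  show (p n).eval s = 0
  simp only [p, Polynomial.eval_finsetSum, Polynomial.eval_monomial]
  rw [← hn]
  apply Finset.sum_congr rfl
  intro j _
  ring

/-- The ideal of polynomials vanishing at a point. -/
lemma eval_zero_of_span {σ : Type} {S : Set (MvPolynomial σ ℂ)} {x : σ → ℂ}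
    (h : ∀ f ∈ S, eval x f = 0) {q : MvPolynomial σ ℂ} (hq : q ∈ Submodule.span (MvPolynomial σ ℂ) S) :
    eval x q = 0 := by
  have hle : Submodule.span (MvPolynomial σ ℂ) S ≤ RingHom.ker (eval x) := by
    rw [Submodule.span_le]
    intro f hf
    exact h f hf
  exact hle hq

/-- Finite subfamily with the same common zeros. -/
lemma exists_finset_same_zeros {σ : Type} [Finite σ] (S : Set (MvPolynomial σ ℂ)) :
    ∃ t : Finset (MvPolynomial σ ℂ), (t : Set (MvPolynomial σ ℂ)) ⊆ S ∧
      ∀ x : σ → ℂ, (∀ f ∈ t, eval x f = 0) → ∀ f ∈ S, eval x f = 0 := by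
  have hfg : (Submodule.span (MvPolynomial σ ℂ) S).FG := IsNoetherian.noetherian _
  obtain ⟨t, ht, hspan⟩ := (Submodule.fg_span_iff_fg_span_finset_subset S).mp hfg
  refine ⟨t, ht, fun x hx f hf => ?_⟩
  have h1 : f ∈ Submodule.span (MvPolynomial σ ℂ) (t : Set (MvPolynomial σ ℂ)) := by
    rw [← hspan]; exact Submodule.subset_span hf
  exact eval_zero_of_span (fun g hg => hx g hg) h1

section

variable {N : ℕ}

/-- Local representability of a self-map by homogeneous polynomials, as in the frozen statement. -/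
def LocRep (X : Set (Projectivization ℂ (Fin (N + 1) → ℂ)))
    (Φ : Projectivization ℂ (Fin (N + 1) → ℂ) → Projectivization ℂ (Fin (N + 1) → ℂ)) : Prop :=
  ∀ x ∈ X, ∃ (d e : ℕ) (F : Fin (N + 1) → MvPolynomial (Fin (N + 1)) ℂ)
      (g : MvPolynomial (Fin (N + 1)) ℂ),
      (∀ i, (F i).IsHomogeneous d) ∧ g.IsHomogeneous e ∧ eval x.rep g ≠ 0 ∧
      ∀ y ∈ X, eval y.rep g ≠ 0 →
        (fun i : Fin (N + 1) => eval y.rep (F i)) ≠ 0 ∧
        (fun i : Fin (N + 1) => eval y.rep (F i)) ∈ (Φ y).submodule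

/-- A finite cover by representatives. -/
lemma exists_cover (X : Set (Projectivization ℂ (Fin (N + 1) → ℂ)))
    (Φ : Projectivization ℂ (Fin (N + 1) → ℂ) → Projectivization ℂ (Fin (N + 1) → ℂ))
    (h : LocRep X Φ) :
    ∃ (r : ℕ) (d : Fin r → ℕ) (G : Fin r → Fin (N + 1) → MvPolynomial (Fin (N + 1)) ℂ),
      (∀ i j, (G i j).IsHomogeneous (d i)) ∧
      (∀ y ∈ X, ∀ i, (fun j => eval y.rep (G i j)) ∈ (Φ y).submodule) ∧
      ∀ y ∈ X, ∃ i, (fun j => eval y.rep (G i j)) ≠ 0 := by
  classical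
  choose! d e F g hF hg hx hrep using h
  obtain ⟨t, ht, hzero⟩ := exists_finset_same_zeros (g '' X)
  have hsel : ∀ f : t, ∃ x, x ∈ X ∧ g x = f.1 := fun f => ht f.2
  choose c hcX hcg using hsel
  let eqv : Fin (Fintype.card t) ≃ t := (Fintype.equivFin t).symm
  refine ⟨Fintype.card t, fun i => e (c (eqv i)) + d (c (eqv i)),
    fun i j => g (c (eqv i)) * F (c (eqv i)) j, ?_, ?_, ?_⟩
  · intro i j
    exact (hg _ (hcX _)).mul (hF _ (hcX _) j)
  · intro y hy i
    have e1 : (fun j => eval y.rep (g (c (eqv i)) * F (c (eqv i)) j)) =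
        (eval y.rep (g (c (eqv i)))) • (fun j => eval y.rep (F (c (eqv i)) j)) := by
      funext j
      rw [map_mul, Pi.smul_apply, smul_eq_mul]
    rw [e1]
    by_cases h0 : eval y.rep (g (c (eqv i))) = 0
    · rw [h0, zero_smul]; exact Submodule.zero_mem _
    · exact Submodule.smul_mem _ _ (hrep _ (hcX _) y hy h0).2
  · intro y hy
    have h1 : ∃ f ∈ t, eval y.rep f ≠ 0 := by
      by_contra hne
      push Not at hne
      exact hx y hy (hzero y.rep hne (g y) ⟨y, hy, rfl⟩)
    obtain ⟨f, hf, hfy⟩ := h1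
    refine ⟨eqv.symm ⟨f, hf⟩, ?_⟩
    have e0 : eqv (eqv.symm ⟨f, hf⟩) = ⟨f, hf⟩ := eqv.apply_symm_apply _
    show (fun j => eval y.rep (g (c (eqv (eqv.symm ⟨f, hf⟩))) *
      F (c (eqv (eqv.symm ⟨f, hf⟩))) j)) ≠ 0
    rw [e0]
    have hgf : g (c ⟨f, hf⟩) = f := hcg ⟨f, hf⟩
    have hne := (hrep _ (hcX ⟨f, hf⟩) y hy (by rw [hgf]; exact hfy)).1
    intro h2
    apply hne
    funext j
    have h3 := congrFun h2 j
    simp only [map_mul, Pi.zero_apply, hgf] at h3 ⊢
    exact (mul_eq_zero.mp h3).resolve_left hfy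

/-- One homogeneous representative along a countable set of points. -/
lemma exists_global (X : Set (Projectivization ℂ (Fin (N + 1) → ℂ)))
    (Φ : Projectivization ℂ (Fin (N + 1) → ℂ) → Projectivization ℂ (Fin (N + 1) → ℂ))
    (h : LocRep X Φ) (x : ℕ → Projectivization ℂ (Fin (N + 1) → ℂ)) (hx : ∀ n, x n ∈ X) :
    ∃ (D : ℕ) (H : Fin (N + 1) → MvPolynomial (Fin (N + 1)) ℂ), (∀ j, (H j).IsHomogeneous D) ∧
      ∀ n, (fun j => eval (x n).rep (H j)) ≠ 0 ∧
        (fun j => eval (x n).rep (H j)) ∈ (Φ (x n)).submodule := by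
  classical
  obtain ⟨r, d, G, hG, hmem, hne⟩ := exists_cover X Φ h
  -- a linear form without zeros along the sequence
  obtain ⟨s₁, hs₁⟩ := exists_generic (fun n => (x n).rep) (fun n => (x n).rep_nonzero)
  set ℓ : MvPolynomial (Fin (N + 1)) ℂ := ∑ j : Fin (N + 1), C (s₁ ^ (j : ℕ)) * MvPolynomial.X j with hℓ
  have hℓhom : ℓ.IsHomogeneous 1 := by
    apply IsHomogeneous.sum
    intro j _
    exact isHomogeneous_C_mul_X _ _
  have hℓne : ∀ n, eval (x n).rep ℓ ≠ 0 := by
    intro n
    have : eval (x n).rep ℓ = ∑ j : Fin (N + 1), s₁ ^ (j : ℕ) * (x n).rep j := by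
      simp [hℓ]
    rw [this]; exact hs₁ n
  set D : ℕ := Finset.univ.sup d with hD
  have hdD : ∀ i, d i ≤ D := fun i => Finset.le_sup (Finset.mem_univ i)
  -- equal degrees
  let G' : Fin r → Fin (N + 1) → MvPolynomial (Fin (N + 1)) ℂ := fun i j => G i j * ℓ ^ (D - d i)
  have hG' : ∀ i j, (G' i j).IsHomogeneous D := by
    intro i j
    have h1 := (hG i j).mul (hℓhom.pow (D - d i))
    have e : d i + 1 * (D - d i) = D := by have := hdD i; omega
    rwa [e] at h1
  have hne' : ∀ n, ∃ i, ∃ j, eval (x n).rep (G' i j) ≠ 0 := by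
    intro n
    obtain ⟨i, hi⟩ := hne (x n) (hx n)
    have : ∃ j, eval (x n).rep (G i j) ≠ 0 := by
      by_contra hc
      push Not at hc
      exact hi (funext hc)
    obtain ⟨j, hj⟩ := this
    refine ⟨i, j, ?_⟩
    simp only [G', map_mul, map_pow]
    exact mul_ne_zero hj (pow_ne_zero _ (hℓne n))
  choose i₀ j₀ hij using hne'
  obtain ⟨s₂, hs₂⟩ := exists_generic (fun n (i : Fin r) => eval (x n).rep (G' i (j₀ n))) (by
    intro n h0
    exact hij n (congrFun h0 (i₀ n)))
  refine ⟨D, fun j => ∑ i : Fin r, C (s₂ ^ (i : ℕ)) * G' i j, ?_, ?_⟩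
  · intro j
    apply IsHomogeneous.sum
    intro i _
    exact (hG' i j).C_mul _
  · intro n
    have heval : ∀ j, eval (x n).rep (∑ i : Fin r, C (s₂ ^ (i : ℕ)) * G' i j) =
        ∑ i : Fin r, s₂ ^ (i : ℕ) * eval (x n).rep (G' i j) := by
      intro j; simp
    constructor
    · intro h0
      have h1 := congrFun h0 (j₀ n)
      simp only [heval, Pi.zero_apply] at h1
      exact hs₂ n h1
    · have e1 : (fun j => eval (x n).rep (∑ i : Fin r, C (s₂ ^ (i : ℕ)) * G' i j)) =
          ∑ i : Fin r, (s₂ ^ (i : ℕ) * eval (x n).rep ℓ ^ (D - d i)) •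
            (fun j => eval (x n).rep (G i j)) := by
        funext j
        rw [heval, Finset.sum_apply]
        apply Finset.sum_congr rfl
        intro i _
        simp only [G', map_mul, map_pow, Pi.smul_apply, smul_eq_mul]
        ring
      rw [e1]
      apply Submodule.sum_mem
      intro i _
      exact Submodule.smul_mem _ _ (hmem (x n) (hx n) i)

/-- The return sets of the frozen statement, given those of polynomial recursions. -/
theorem return_of_poly
    (hyp : ∀ (H : Fin (N + 1) → MvPolynomial (Fin (N + 1)) ℂ) (u : ℕ → Fin (N + 1) → ℂ),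
      (∀ n j, u (n + 1) j = eval (u n) (H j)) → ∀ G : MvPolynomial (Fin (N + 1)) ℂ,
        FinAP {n | eval (u n) G = 0})
    (X : Set (Projectivization ℂ (Fin (N + 1) → ℂ)))
    (Φ : Projectivization ℂ (Fin (N + 1) → ℂ) → Projectivization ℂ (Fin (N + 1) → ℂ))
    (hΦ : ∀ x ∈ X, Φ x ∈ X) (h : LocRep X Φ)
    (α : Projectivization ℂ (Fin (N + 1) → ℂ)) (hα : α ∈ X)
    (V : Set (Projectivization ℂ (Fin (N + 1) → ℂ)))
    (hV : ∃ Cs : Set (MvPolynomial (Fin (N + 1)) ℂ),
          (∀ F ∈ Cs, ∃ d : ℕ, F.IsHomogeneous d) ∧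
          ∀ p : Projectivization ℂ (Fin (N + 1) → ℂ), p ∈ V ↔ ∀ F ∈ Cs, eval p.rep F = 0) :
    FinAP {n : ℕ | Φ^[n] α ∈ V} := by
  classical
  set x : ℕ → Projectivization ℂ (Fin (N + 1) → ℂ) := fun n => Φ^[n] α with hx
  have hxX : ∀ n, x n ∈ X := by
    intro n
    induction n with
    | zero => exact hα
    | succ n ih =>
      simp only [hx, Function.iterate_succ_apply']
      exact hΦ _ ih
  obtain ⟨D, H, hH, hHx⟩ := exists_global X Φ h x hxX
  -- lifted orbit
  let step : (Fin (N + 1) → ℂ) → (Fin (N + 1) → ℂ) := fun v j => eval v (H j)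
  set u : ℕ → Fin (N + 1) → ℂ := fun n => step^[n] α.rep with hu
  have hustep : ∀ n j, u (n + 1) j = eval (u n) (H j) := by
    intro n j
    simp only [hu, Function.iterate_succ_apply']
    rfl
  have hlift : ∀ n, ∃ c : ℂ, c ≠ 0 ∧ u n = c • (x n).rep := by
    intro n
    induction n with
    | zero => exact ⟨1, one_ne_zero, by simp [hu, hx]⟩
    | succ n ih =>
      obtain ⟨c, hc, huc⟩ := ih
      obtain ⟨h1, h2⟩ := hHx n
      have h3 : Φ (x n) = x (n + 1) := by
        simp only [hx, Function.iterate_succ_apply']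
      rw [h3, Projectivization.submodule_eq, Submodule.mem_span_singleton] at h2
      obtain ⟨c', hc'⟩ := h2
      have hc'0 : c' ≠ 0 := by
        rintro rfl
        rw [zero_smul] at hc'
        exact h1 hc'.symm
      refine ⟨c ^ D * c', mul_ne_zero (pow_ne_zero _ hc) hc'0, ?_⟩
      funext j
      rw [hustep, huc, eval_smul_hom (hH j), mul_smul, hc']
      rfl
  obtain ⟨Cs, hCs, hVC⟩ := hV
  obtain ⟨t, ht, hzero⟩ := exists_finset_same_zeros Cs
  have hset : {n : ℕ | Φ^[n] α ∈ V} = ⋂ f ∈ t, {n | eval (u n) f = 0} := by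
    ext n
    simp only [Set.mem_ofPred_eq, Set.mem_iInter]
    rw [hVC]
    have hiff : ∀ f ∈ Cs, (eval (u n) f = 0 ↔ eval (Φ^[n] α).rep f = 0) := by
      intro f hf
      obtain ⟨d, hd⟩ := hCs f hf
      obtain ⟨c, hc, huc⟩ := hlift n
      rw [huc, eval_smul_hom hd, mul_eq_zero]
      constructor
      · rintro (h1 | h1)
        · exact absurd h1 (pow_ne_zero _ hc)
        · exact h1
      · intro h1; exact Or.inr h1
    constructor
    · intro h1 f hf
      exact (hiff f (ht hf)).mpr (h1 f (ht hf))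
    · intro h1
      apply hzero
      intro f hf
      exact (hiff f (ht hf)).mp (h1 f hf)
  rw [hset]
  apply FinAP.biInter
  intro f _
  exact hyp H u hustep f

end

end Pool.Agent.Helper87.GraphSML
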