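import Mathlib
import Pool.Agent.Helper87.GraphSML.Geo

set_option autoImplicit false

namespace Pool.Agent.Helper87.GraphSML

open MvPolynomial

/-- The conclusion of the frozen statement for one set of data. -/
def Conclusion : Prop :=
  ∀ (N : ℕ) (X : Set (Projectivization ℂ (Fin (N + 1) → ℂ))),
    (∃ A B : Set (MvPolynomial (Fin (N + 1)) ℂ),
      (∀ F ∈ A, ∃ d : ℕ, F.IsHomogeneous d) ∧ (∀ F ∈ B, ∃ d : ℕ, F.IsHomogeneous d) ∧
      ∀ p : Projectivization ℂ (Fin (N + 1) → ℂ), p ∈ X ↔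
        ((∀ F ∈ A, MvPolynomial.eval p.rep F = 0) ∧ ∃ F ∈ B, MvPolynomial.eval p.rep F ≠ 0)) →
    ∀ Φ : Projectivization ℂ (Fin (N + 1) → ℂ) → Projectivization ℂ (Fin (N + 1) → ℂ),
      (∀ x ∈ X, Φ x ∈ X) → LocRep X Φ →
      ∀ α ∈ X, ∀ V : Set (Projectivization ℂ (Fin (N + 1) → ℂ)),
        (∃ Cs : Set (MvPolynomial (Fin (N + 1)) ℂ),
          (∀ F ∈ Cs, ∃ d : ℕ, F.IsHomogeneous d) ∧
          ∀ p : Projectivization ℂ (Fin (N + 1) → ℂ), p ∈ V ↔
            ∀ F ∈ Cs, MvPolynomial.eval p.rep F = 0) →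
        FinAP {n : ℕ | Φ^[n] α ∈ V}

section

variable (k : ℕ) (E : Finset (ℕ × ℕ))

/-- Coordinates with natural indices. -/
noncomputable def yy (i : ℕ) : MvPolynomial (Fin (k + 1)) ℂ := X (Fin.ofNat (k + 1) i)

/-- The homogenised shift. -/
noncomputable def shiftF (j : Fin (k + 1)) : MvPolynomial (Fin (k + 1)) ℂ :=
  if (j : ℕ) = 0 then yy k 0 * yy k 0
  else if (j : ℕ) < k then yy k 0 * yy k (j + 1) else ∑ e ∈ E, yy k (e.1 + 1) * yy k (e.2 + 1)

lemma shiftF_hom (j : Fin (k + 1)) : (shiftF k E j).IsHomogeneous 2 := by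
  have h : ∀ i i', (yy k i * yy k i').IsHomogeneous 2 := fun i i' =>
    (isHomogeneous_X ℂ _).mul (isHomogeneous_X ℂ _)
  unfold shiftF
  split_ifs
  · exact h _ _
  · exact h _ _
  · exact IsHomogeneous.sum _ _ _ (fun e _ => h _ _)

/-- The state vector. -/
def stateV (a : ℕ → ℂ) (n : ℕ) : Fin (k + 1) → ℂ := fun j => if (j : ℕ) = 0 then 1 else a (n + (j - 1))

lemma eval_yy (a : ℕ → ℂ) (n i : ℕ) (hi : i ≤ k) :
    eval (stateV k a n) (yy k i) = if i = 0 then 1 else a (n + (i - 1)) := by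
  have h : (Fin.ofNat (k + 1) i : ℕ) = i := by
    simp only [Fin.ofNat]
    exact Nat.mod_eq_of_lt (by omega)
  simp only [yy, eval_X, stateV, h]

lemma eval_shiftF {a : ℕ → ℂ} (h : IsGraphRec k E a) (hk : 1 ≤ k) (n : ℕ) :
    (fun j => eval (stateV k a n) (shiftF k E j)) = stateV k a (n + 1) := by
  funext j
  unfold shiftF
  split_ifs with h1 h2
  · rw [map_mul, eval_yy k a n 0 (by omega)]
    simp [stateV, h1]
  · rw [map_mul, eval_yy k a n 0 (by omega), eval_yy k a n _ (by omega)]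
    simp only [stateV, if_true, one_mul, if_neg h1]
    rw [if_neg (by omega)]
    congr 1
    omega
  · have hj : (j : ℕ) = k := by have := j.2; omega
    rw [map_sum]
    have e1 : ∀ e ∈ E, eval (stateV k a n) (yy k (e.1 + 1) * yy k (e.2 + 1)) =
        a (n + e.1) * a (n + e.2) := by
      intro e he
      obtain ⟨g1, g2⟩ := h.1 e he
      rw [map_mul, eval_yy k a n _ (by omega), eval_yy k a n _ (by omega)]
      simp
    rw [Finset.sum_congr rfl e1, ← h.2 n]
    simp only [stateV, hj]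
    rw [if_neg (by omega)]
    congr 1
    omega

/-- **The converse direction.** -/
theorem graph_of_conclusion (hyp : Conclusion) (a : ℕ → ℂ) (h : IsGraphRec k E a) :
    FinAP {n | a n = 0} := by
  classical
  rcases Nat.eq_zero_or_pos k with hk | hk
  · subst hk
    have hE : E = ∅ := by
      rw [Finset.eq_empty_iff_forall_notMem]
      intro e he
      have := h.1 e he
      omega
    have h0 : ∀ n, a n = 0 := by
      intro n
      have := h.2 n
      rw [hE] at this
      simpa using this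
    have : {n | a n = 0} = Set.univ := by ext n; simp [h0 n]
    rw [this]
    exact finAP_univ
  set Xs : Set (Projectivization ℂ (Fin (k + 1) → ℂ)) := {p | p.rep 0 ≠ 0} with hXs
  let Fv : (Fin (k + 1) → ℂ) → (Fin (k + 1) → ℂ) := fun v j => eval v (shiftF k E j)
  have hF0 : ∀ v, Fv v 0 = v 0 * v 0 := by
    intro v
    have : (Fin.ofNat (k + 1) 0) = 0 := rfl
    simp [Fv, shiftF, yy]
  have hFs : ∀ (c : ℂ) v, Fv (c • v) = c ^ 2 • Fv v := by
    intro c v
    funext j
    exact eval_smul_hom (shiftF_hom k E j) c v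
  let Φ : Projectivization ℂ (Fin (k + 1) → ℂ) → Projectivization ℂ (Fin (k + 1) → ℂ) :=
    fun y => if hy : Fv y.rep ≠ 0 then Projectivization.mk ℂ (Fv y.rep) hy else y
  have hFne : ∀ y ∈ Xs, Fv y.rep ≠ 0 := by
    intro y hy h0
    have := congrFun h0 0
    rw [hF0] at this
    exact hy (mul_self_eq_zero.mp this)
  have hΦmk : ∀ y (hy : y ∈ Xs), Φ y = Projectivization.mk ℂ (Fv y.rep) (hFne y hy) := by
    intro y hy
    simp only [Φ]
    rw [dif_pos (hFne y hy)]
  have hmkX : ∀ (v : Fin (k + 1) → ℂ) (hv : v ≠ 0), v 0 ≠ 0 → Projectivization.mk ℂ v hv ∈ Xs := by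
    intro v hv h0
    obtain ⟨c, hc⟩ := Projectivization.exists_smul_eq_mk_rep ℂ v hv
    show (Projectivization.mk ℂ v hv).rep 0 ≠ 0
    rw [← hc]
    exact mul_ne_zero c.ne_zero h0
  have hΦX : ∀ y ∈ Xs, Φ y ∈ Xs := by
    intro y hy
    rw [hΦmk y hy]
    apply hmkX
    rw [hF0]
    exact mul_ne_zero hy hy
  have hloc : LocRep Xs Φ := by
    intro x hx
    refine ⟨2, 1, shiftF k E, X 0, shiftF_hom k E, isHomogeneous_X _ _, by rw [eval_X]; exact hx, ?_⟩
    intro y hy _
    refine ⟨hFne y hy, ?_⟩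
    rw [hΦmk y hy, Projectivization.submodule_mk]
    exact Submodule.mem_span_singleton_self _
  -- the orbit
  have hst0 : ∀ n, stateV k a n 0 = 1 := by intro n; simp [stateV]
  have hstne : ∀ n, stateV k a n ≠ 0 := by
    intro n h0
    have := congrFun h0 0
    rw [hst0] at this
    exact one_ne_zero this
  have horb : ∀ n, Φ^[n] (Projectivization.mk ℂ (stateV k a 0) (hstne 0)) =
      Projectivization.mk ℂ (stateV k a n) (hstne n) := by
    intro n
    induction n with
    | zero => rfl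
    | succ n ih =>
      rw [Function.iterate_succ_apply', ih]
      have hX : Projectivization.mk ℂ (stateV k a n) (hstne n) ∈ Xs :=
        hmkX _ _ (by rw [hst0]; exact one_ne_zero)
      rw [hΦmk _ hX, Projectivization.mk_eq_mk_iff']
      obtain ⟨c, hc⟩ := Projectivization.exists_smul_eq_mk_rep ℂ (stateV k a n) (hstne n)
      refine ⟨(c : ℂ) ^ 2, ?_⟩
      rw [← hc]
      have e1 : (c • stateV k a n) = (c : ℂ) • stateV k a n := rfl
      rw [e1, hFs]
      congr 1
      exact (eval_shiftF k E h hk n).symm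
  have hconc := hyp k Xs ⟨∅, {X 0}, by simp, by
      intro F hF
      rw [Set.mem_singleton_iff] at hF
      exact ⟨1, by rw [hF]; exact isHomogeneous_X _ _⟩, by
      intro p
      simp [hXs]⟩ Φ hΦX hloc (Projectivization.mk ℂ (stateV k a 0) (hstne 0))
      (hmkX _ _ (by rw [hst0]; exact one_ne_zero))
      {p | eval p.rep (yy k 1) = 0}
      ⟨{yy k 1}, by
        intro F hF
        rw [Set.mem_singleton_iff] at hF
        exact ⟨1, by rw [hF]; exact isHomogeneous_X _ _⟩, by
        intro p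
        simp⟩
  have hset : {n | a n = 0} = {n : ℕ | Φ^[n] (Projectivization.mk ℂ (stateV k a 0) (hstne 0)) ∈
      ({p | eval p.rep (yy k 1) = 0} : Set (Projectivization ℂ (Fin (k + 1) → ℂ)))} := by
    ext n
    simp only [Set.mem_ofPred_eq]
    rw [horb n]
    obtain ⟨c, hc⟩ := Projectivization.exists_smul_eq_mk_rep ℂ (stateV k a n) (hstne n)
    rw [← hc]
    have e1 : (c • stateV k a n) = (c : ℂ) • stateV k a n := rfl
    have e2 : (yy k 1).IsHomogeneous 1 := isHomogeneous_X ℂ _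
    rw [e1, eval_smul_hom e2, eval_yy k a n 1 hk]
    simp
  rw [hset]
  exact hconc

end

end Pool.Agent.Helper87.GraphSML
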