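import Mathlib
import Pool.Agent.Helper87.GraphSML.Geo

set_option autoImplicit false

namespace Pool.Agent.Helper87.GraphSML

open MvPolynomial

variable {σ : Type}

/-- Times at which all polynomials of the ideal vanish. -/
def ret (u : ℕ → σ → ℂ) (J : Ideal (MvPolynomial σ ℂ)) : Set ℕ := {n | ∀ F ∈ J, eval (u n) F = 0}

lemma mem_ret {u : ℕ → σ → ℂ} {J : Ideal (MvPolynomial σ ℂ)} {n : ℕ} :
    n ∈ ret u J ↔ J ≤ RingHom.ker (eval (u n)) := Iff.rfl

lemma ret_sup (u : ℕ → σ → ℂ) (J K : Ideal (MvPolynomial σ ℂ)) :
    ret u (J ⊔ K) = ret u J ∩ ret u K := by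
  ext n
  rw [Set.mem_inter_iff, mem_ret, mem_ret, mem_ret, sup_le_iff]

lemma ret_anti {u : ℕ → σ → ℂ} {J K : Ideal (MvPolynomial σ ℂ)} (h : J ≤ K) :
    ret u K ⊆ ret u J := fun _ hn F hF => hn F (h hF)

lemma ret_span (u : ℕ → σ → ℂ) (S : Set (MvPolynomial σ ℂ)) :
    ret u (Ideal.span S) = {n | ∀ F ∈ S, eval (u n) F = 0} := by
  ext n
  rw [mem_ret, Ideal.span_le]
  rfl

/-- Iterated pullback. -/
lemma eval_pull (H : σ → MvPolynomial σ ℂ) (u : ℕ → σ → ℂ)
    (hu : ∀ n j, u (n + 1) j = eval (u n) (H j)) (F : MvPolynomial σ ℂ) (d n : ℕ) :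
    eval (u n) ((fun G => bind₁ H G)^[d] F) = eval (u (n + d)) F := by
  induction d generalizing F with
  | zero => rfl
  | succ d ih =>
    rw [Function.iterate_succ_apply, ih]
    have h1 : u (n + (d + 1)) = fun j => eval (u (n + d)) (H j) := by
      funext j
      rw [← add_assoc]
      exact hu (n + d) j
    rw [h1]
    exact eval₂Hom_bind₁ (RingHom.id ℂ) (u (n + d)) H F

/-- An ideal has a single element with the same return set along the orbit. -/
lemma exists_single [Finite σ] (u : ℕ → σ → ℂ) (J : Ideal (MvPolynomial σ ℂ)) :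
    ∃ G ∈ J, {n | eval (u n) G = 0} = ret u J := by
  classical
  have hfg : J.FG := IsNoetherian.noetherian J
  obtain ⟨t, ht⟩ := hfg
  let m := Fintype.card t
  let eqv : Fin m ≃ t := (Fintype.equivFin t).symm
  have hret : ret u J = {n | ∀ i : Fin m, eval (u n) (eqv i).1 = 0} := by
    have h0 : ret u J = {n | ∀ F ∈ (t : Set (MvPolynomial σ ℂ)), eval (u n) F = 0} := by
      rw [← ret_span]; exact congrArg (ret u) ht.symm
    rw [h0]
    ext n
    constructor
    · intro h i
      exact h _ (eqv i).2
    · intro h F hF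
      have := h (eqv.symm ⟨F, hF⟩)
      rwa [eqv.apply_symm_apply] at this
  rcases Nat.eq_zero_or_pos m with hm | hm
  · refine ⟨0, J.zero_mem, ?_⟩
    rw [hret]
    ext n
    simp only [map_zero, Set.mem_ofPred_eq, true_iff]
    intro i
    have := i.2
    omega
  · obtain ⟨s, hs⟩ := exists_generic (m := m)
      (fun n => if n ∈ ret u J then (fun _ => 1) else fun i => eval (u n) (eqv i).1) (by
        intro n
        beta_reduce
        split_ifs with h
        · intro h0
          have := congrFun h0 ⟨0, hm⟩
          exact one_ne_zero this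
        · intro h0
          apply h
          rw [hret]
          intro i
          exact congrFun h0 i)
    refine ⟨∑ i : Fin m, C (s ^ (i : ℕ)) * (eqv i).1, ?_, ?_⟩
    · apply Submodule.sum_mem
      intro i _
      apply Ideal.mul_mem_left
      rw [← ht]
      exact Submodule.subset_span (eqv i).2
    · ext n
      simp only [Set.mem_ofPred_eq, map_sum, map_mul, eval_C]
      constructor
      · intro h
        by_contra hn
        apply hs n
        rw [if_neg hn]
        exact h
      · intro h
        rw [hret] at h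
        apply Finset.sum_eq_zero
        intro i _
        rw [h i, mul_zero]

/-- Weak recurrence implies that infinite return sets contain infinite progressions. -/
theorem contains_AP [Finite σ] (H : σ → MvPolynomial σ ℂ) (u : ℕ → σ → ℂ)
    (hu : ∀ n j, u (n + 1) j = eval (u n) (H j))
    (hrec : ∀ G : MvPolynomial σ ℂ, {n | eval (u n) G = 0}.Infinite →
      ∃ d, 0 < d ∧ {n | eval (u n) G = 0 ∧ eval (u (n + d)) G = 0}.Infinite)
    (J : Ideal (MvPolynomial σ ℂ)) :
    (ret u J).Infinite → ∃ a r, 0 < r ∧ ∀ n, a + r * n ∈ ret u J := by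
  induction J using IsNoetherian.induction with
  | hgt J ih =>
    intro hinf
    obtain ⟨G, hG, hGJ⟩ := exists_single u J
    obtain ⟨d, hd, hinf2⟩ := hrec G (by rw [hGJ]; exact hinf)
    set K : Ideal (MvPolynomial σ ℂ) :=
      J ⊔ Ideal.span ((fun G => bind₁ H G)^[d] '' (J : Set (MvPolynomial σ ℂ))) with hK
    have hretK : ret u K = {n | n ∈ ret u J ∧ n + d ∈ ret u J} := by
      rw [hK, ret_sup, ret_span]
      ext n
      simp only [Set.mem_inter_iff, Set.mem_ofPred_eq]
      apply and_congr Iff.rfl
      constructor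
      · intro h F hF
        rw [← eval_pull H u hu F d n]
        exact h _ ⟨F, hF, rfl⟩
      · rintro h _ ⟨F, hF, rfl⟩
        rw [eval_pull H u hu F d n]
        exact h F hF
    have hinfK : (ret u K).Infinite := by
      rw [hretK]
      have : {n | n ∈ ret u J ∧ n + d ∈ ret u J} =
          {n | eval (u n) G = 0 ∧ eval (u (n + d)) G = 0} := by
        rw [← hGJ]
        rfl
      rw [this]
      exact hinf2
    by_cases hJK : J = K
    · -- `J` is invariant
      obtain ⟨a, ha⟩ := hinf.nonempty
      have hstep : ∀ n, n ∈ ret u J → n + d ∈ ret u J := by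
        intro n hn
        have h2 : n ∈ ret u K := by rw [← hJK]; exact hn
        rw [hretK] at h2
        exact h2.2
      refine ⟨a, d, hd, fun n => ?_⟩
      induction n with
      | zero => simpa using ha
      | succ n ihn =>
        have := hstep _ ihn
        rwa [show a + d * (n + 1) = a + d * n + d by ring]
    · have hlt : K > J := lt_of_le_of_ne le_sup_left hJK
      obtain ⟨a, r, hr, har⟩ := ih K hlt hinfK
      exact ⟨a, r, hr, fun n => ret_anti le_sup_left (har n)⟩

/-- Polynomials vanishing at all large times in a residue class. -/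
def tailIdeal (u : ℕ → σ → ℂ) (r c : ℕ) : Ideal (MvPolynomial σ ℂ) where
  carrier := {F | ∃ m, ∀ n, m ≤ n → n ≡ c [MOD r] → eval (u n) F = 0}
  zero_mem' := ⟨0, fun n _ _ => by simp⟩
  add_mem' := by
    rintro F G ⟨m, hm⟩ ⟨m', hm'⟩
    refine ⟨max m m', fun n hn hc => ?_⟩
    rw [map_add, hm n (by omega) hc, hm' n (by omega) hc, add_zero]
  smul_mem' := by
    rintro F G ⟨m, hm⟩
    refine ⟨m, fun n hn hc => ?_⟩
    rw [smul_eq_mul, map_mul, hm n hn hc, mul_zero]

lemma mem_tailIdeal {u : ℕ → σ → ℂ} {r c : ℕ} {F : MvPolynomial σ ℂ} :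
    F ∈ tailIdeal u r c ↔ ∃ m, ∀ n, m ≤ n → n ≡ c [MOD r] → eval (u n) F = 0 := Iff.rfl

/-- A uniform starting time for the tail ideal. -/
lemma tailIdeal_uniform [Finite σ] (u : ℕ → σ → ℂ) (r c : ℕ) :
    ∃ m, ∀ n, m ≤ n → n ≡ c [MOD r] → n ∈ ret u (tailIdeal u r c) := by
  classical
  have hfg : (tailIdeal u r c).FG := IsNoetherian.noetherian _
  obtain ⟨t, ht⟩ := hfg
  have h1 : ∀ F ∈ t, ∃ m, ∀ n, m ≤ n → n ≡ c [MOD r] → eval (u n) F = 0 := by
    intro F hF
    have : F ∈ tailIdeal u r c := by rw [← ht]; exact Submodule.subset_span hF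
    exact this
  choose! m hm using h1
  refine ⟨t.sup m, fun n hn hc => ?_⟩
  have h2 : ret u (tailIdeal u r c) = {n | ∀ F ∈ (t : Set (MvPolynomial σ ℂ)), eval (u n) F = 0} := by
    rw [← ret_span]; exact congrArg (ret u) ht.symm
  rw [h2]
  intro F hF
  exact hm F hF n ((Finset.le_sup (f := m) hF).trans hn) hc

/-- Infinite return sets containing progressions forces eventual periodicity. -/
theorem evPer_of_contains [Finite σ] (H : σ → MvPolynomial σ ℂ) (u : ℕ → σ → ℂ)
    (hu : ∀ n j, u (n + 1) j = eval (u n) (H j))
    (hcont : ∀ J : Ideal (MvPolynomial σ ℂ), (ret u J).Infinite →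
      ∃ a r, 0 < r ∧ ∀ n, a + r * n ∈ ret u J)
    (J : Ideal (MvPolynomial σ ℂ)) : EvPer (ret u J) := by
  classical
  induction J using IsNoetherian.induction with
  | hgt J ih =>
    by_cases hinf : (ret u J).Infinite
    swap
    · -- finite return set
      rw [Set.not_infinite] at hinf
      obtain ⟨B, hB⟩ := hinf.bddAbove
      refine ⟨1, B + 1, one_pos, fun n hn => ?_⟩
      constructor
      · intro h; have := hB h; omega
      · intro h; have := hB h; omega
    obtain ⟨a, r, hr, har⟩ := hcont J hinf
    -- shifting the residue class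
    have hshift : ∀ c F, F ∈ tailIdeal u r (c + 1) ↔ bind₁ H F ∈ tailIdeal u r c := by
      intro c F
      have hev : ∀ n, eval (u n) (bind₁ H F) = eval (u (n + 1)) F := by
        intro n
        have := eval_pull H u hu F 1 n
        simpa using this
      constructor
      · rintro ⟨m, hm⟩
        refine ⟨m, fun n hn hc => ?_⟩
        rw [hev]
        exact hm (n + 1) (by omega) (hc.add_right 1)
      · rintro ⟨m, hm⟩
        refine ⟨m + 1, fun n hn hc => ?_⟩
        obtain ⟨n', rfl⟩ : ∃ n', n = n' + 1 := ⟨n - 1, by omega⟩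
        rw [← hev]
        exact hm n' (by omega) (Nat.ModEq.add_right_cancel' 1 hc)
    have hper : ∀ c q, tailIdeal u r (c + r * q) = tailIdeal u r c := by
      intro c q
      ext F
      rw [mem_tailIdeal, mem_tailIdeal]
      have : ∀ n, n ≡ c + r * q [MOD r] ↔ n ≡ c [MOD r] := by
        intro n
        constructor
        · intro h
          refine h.trans ?_
          rw [Nat.ModEq, Nat.add_mul_mod_self_left]
        · intro h
          refine h.trans ?_
          rw [Nat.ModEq, Nat.add_mul_mod_self_left]
      simp only [this]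
    have hmono : ∀ c c' j, tailIdeal u r c ≤ tailIdeal u r c' →
        tailIdeal u r (c + j) ≤ tailIdeal u r (c' + j) := by
      intro c c' j h
      induction j with
      | zero => exact h
      | succ j ihj =>
        intro F hF
        rw [← add_assoc, hshift] at hF ⊢
        exact ihj hF
    -- the class of `a`
    have hJa : J ≤ tailIdeal u r a := by
      intro F hF
      refine ⟨a, fun n hn hc => ?_⟩
      obtain ⟨q, hq⟩ := (Nat.modEq_iff_dvd' hn).mp hc.symm
      have : n = a + r * q := by omega
      rw [this]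
      exact har q F hF
    -- each residue class is eventually periodic
    have hclass : ∀ b, ∃ L m, 0 < L ∧ ∀ n, m ≤ n → n ≡ b [MOD r] →
        (n + r * L ∈ ret u J ↔ n ∈ ret u J) := by
      intro b
      obtain ⟨m, hm⟩ := tailIdeal_uniform u r b
      by_cases hb : tailIdeal u r b ≤ J
      · -- then the whole class is in the return set
        have h1 : ∀ j, tailIdeal u r (b + j * (r * (b + 1) + a - b)) ≤ tailIdeal u r b ∨ True := by
          intro j; exact Or.inr trivial
        -- e = a - b modulo r
        set e : ℕ := r * (b + 1) + a - b with he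
        have heb : b + e = a + r * (b + 1) := by
          have : b ≤ r * (b + 1) := by nlinarith
          omega
        have h2 : tailIdeal u r b ≤ tailIdeal u r (b + e) := by
          rw [heb, hper]
          exact hb.trans hJa
        have h3 : ∀ j, tailIdeal u r (b + e) ≤ tailIdeal u r (b + e * (j + 1)) := by
          intro j
          induction j with
          | zero => simp
          | succ j ihj =>
            refine ihj.trans ?_
            have h4 := hmono b (b + e) (e * (j + 1)) h2
            have e1 : b + e + e * (j + 1) = b + e * (j + 1 + 1) := by ring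
            rwa [e1] at h4
        have h5 : tailIdeal u r a ≤ tailIdeal u r b := by
          obtain ⟨r', rfl⟩ : ∃ r', r = r' + 1 := ⟨r - 1, by omega⟩
          have h6 := h3 r'
          rw [heb, hper] at h6
          have e2 : b + e * (r' + 1) = b + (r' + 1) * e := by ring
          rw [e2, hper] at h6
          exact h6
        have h7 : J ≤ tailIdeal u r b := hJa.trans h5
        refine ⟨1, m, one_pos, fun n hn hc => ?_⟩
        have h8 : n ∈ ret u J := fun F hF => hm n hn hc F (h7 hF)
        have hc' : n + r * 1 ≡ b [MOD r] := by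
          refine Nat.ModEq.trans ?_ hc
          rw [Nat.ModEq, Nat.add_mul_mod_self_left]
        have h9 : n + r * 1 ∈ ret u J := fun F hF => hm _ (by omega) hc' F (h7 hF)
        exact ⟨fun _ => h8, fun _ => h9⟩
      · -- strictly larger ideal
        have hlt : J ⊔ tailIdeal u r b > J := by
          refine lt_of_le_of_ne le_sup_left ?_
          intro h
          exact hb (by rw [h]; exact le_sup_right)
        obtain ⟨L, n₀, hL, hper'⟩ := ih _ hlt
        refine ⟨L, max m n₀, hL, fun n hn hc => ?_⟩
        have hc' : n + r * L ≡ b [MOD r] := by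
          refine Nat.ModEq.trans ?_ hc
          rw [Nat.ModEq, Nat.add_mul_mod_self_left]
        have h1 : n ∈ ret u J ↔ n ∈ ret u (J ⊔ tailIdeal u r b) := by
          rw [ret_sup]
          exact ⟨fun h => ⟨h, hm n (by omega) hc⟩, fun h => h.1⟩
        have h2 : n + r * L ∈ ret u J ↔ n + r * L ∈ ret u (J ⊔ tailIdeal u r b) := by
          rw [ret_sup]
          exact ⟨fun h => ⟨h, hm _ (by omega) hc'⟩, fun h => h.1⟩
        rw [h1, h2, mul_comm r L]
        exact EvPer.mul hper' r n (by omega)
    choose L m hL hLm using hclass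
    refine ⟨r * ∏ b ∈ Finset.range r, L b, (Finset.range r).sup m, ?_, ?_⟩
    · exact Nat.mul_pos hr (Finset.prod_pos fun b _ => hL b)
    · intro n hn
      set b := n % r with hb
      have hbr : b ∈ Finset.range r := Finset.mem_range.mpr (Nat.mod_lt _ hr)
      have hnb : n ≡ b [MOD r] := (Nat.mod_modEq n r).symm
      obtain ⟨q, hq⟩ : L b ∣ ∏ b ∈ Finset.range r, L b := Finset.dvd_prod_of_mem L hbr
      rw [hq, ← mul_assoc]
      have hmb : m b ≤ n := (Finset.le_sup (f := m) hbr).trans hn
      have key : ∀ q, n + r * L b * q ∈ ret u J ↔ n ∈ ret u J := by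
        intro q
        induction q with
        | zero => exact Iff.rfl
        | succ q ihq =>
          have e1 : n + r * L b * (q + 1) = (n + r * L b * q) + r * L b := by ring
          rw [e1]
          refine Iff.trans (hLm b _ (by omega) ?_) ihq
          refine Nat.ModEq.trans ?_ hnb
          rw [mul_assoc, Nat.ModEq, Nat.add_mul_mod_self_left]
      exact key q

/-- **Weak recurrence suffices** for polynomial recursions. -/
theorem finAP_of_weak [Finite σ] (H : σ → MvPolynomial σ ℂ) (u : ℕ → σ → ℂ)
    (hu : ∀ n j, u (n + 1) j = eval (u n) (H j))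
    (hrec : ∀ G : MvPolynomial σ ℂ, {n | eval (u n) G = 0}.Infinite →
      ∃ d, 0 < d ∧ {n | eval (u n) G = 0 ∧ eval (u (n + d)) G = 0}.Infinite)
    (G : MvPolynomial σ ℂ) : FinAP {n | eval (u n) G = 0} := by
  have h1 := evPer_of_contains H u hu (contains_AP H u hu hrec) (Ideal.span {G})
  have h2 : ret u (Ideal.span {G}) = {n | eval (u n) G = 0} := by
    rw [ret_span]
    ext n
    simp
  rw [h2] at h1
  exact h1.finAP

end Pool.Agent.Helper87.GraphSML
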