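import Mathlib
import Pool.Agent.Helper87.GraphSML.Conv
import Pool.Agent.Helper87.GraphSML.Weak

set_option autoImplicit false

namespace Pool.Agent.Results.MP_295d38_ag.GraphRecurrences

/-- The dynamical Mordell-Lang conjecture for quasiprojective varieties over `ℂ`, word for word as
in the frozen statement S00091. -/
def DynamicalMordellLang : Prop :=
  ∀ (N : ℕ) (X : Set (Projectivization ℂ (Fin (N + 1) → ℂ))),
    (∃ A B : Set (MvPolynomial (Fin (N + 1)) ℂ),
      (∀ F ∈ A, ∃ d : ℕ, F.IsHomogeneous d) ∧ (∀ F ∈ B, ∃ d : ℕ, F.IsHomogeneous d) ∧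
      ∀ p : Projectivization ℂ (Fin (N + 1) → ℂ), p ∈ X ↔
        ((∀ F ∈ A, MvPolynomial.eval p.rep F = 0) ∧ ∃ F ∈ B, MvPolynomial.eval p.rep F ≠ 0)) →
    ∀ Φ : Projectivization ℂ (Fin (N + 1) → ℂ) → Projectivization ℂ (Fin (N + 1) → ℂ),
      (∀ x ∈ X, Φ x ∈ X) →
      (∀ x ∈ X, ∃ (d e : ℕ) (F : Fin (N + 1) → MvPolynomial (Fin (N + 1)) ℂ)
          (g : MvPolynomial (Fin (N + 1)) ℂ),
          (∀ i, (F i).IsHomogeneous d) ∧ g.IsHomogeneous e ∧ MvPolynomial.eval x.rep g ≠ 0 ∧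
          ∀ y ∈ X, MvPolynomial.eval y.rep g ≠ 0 →
            (fun i : Fin (N + 1) => MvPolynomial.eval y.rep (F i)) ≠ 0 ∧
            (fun i : Fin (N + 1) => MvPolynomial.eval y.rep (F i)) ∈ (Φ y).submodule) →
      ∀ α ∈ X, ∀ V : Set (Projectivization ℂ (Fin (N + 1) → ℂ)),
        (∃ C : Set (MvPolynomial (Fin (N + 1)) ℂ),
          (∀ F ∈ C, ∃ d : ℕ, F.IsHomogeneous d) ∧
          ∀ p : Projectivization ℂ (Fin (N + 1) → ℂ), p ∈ V ↔ ∀ F ∈ C, MvPolynomial.eval p.rep F = 0) →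
        ∃ T : Finset (ℕ × ℕ),
          {n : ℕ | Φ^[n] α ∈ V} = {n : ℕ | ∃ t ∈ T, ∃ k : ℕ, n = t.1 + t.2 * k}

/-- `a` is a graph recurrence: `E` is the edge set of a finite graph on `{0, …, k - 1}` (an edge
`{i, j}` is written as the pair `(i, j)` with `i < j`) and `a (n + k)` is the sum of the products
`a (n + i) a (n + j)` over the edges. -/
def IsGraphRecurrence (k : ℕ) (E : Finset (ℕ × ℕ)) (a : ℕ → ℂ) : Prop :=
  (∀ e ∈ E, e.1 < e.2 ∧ e.2 < k) ∧ ∀ n, a (n + k) = ∑ e ∈ E, a (n + e.1) * a (n + e.2)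

/-- The Skolem-Mahler-Lech property for graph recurrences: the zero set is a finite union of
arithmetic progressions. -/
def GraphSkolem : Prop :=
  ∀ (k : ℕ) (E : Finset (ℕ × ℕ)) (a : ℕ → ℂ), IsGraphRecurrence k E a →
    ∃ T : Finset (ℕ × ℕ), {n : ℕ | a n = 0} = {n : ℕ | ∃ t ∈ T, ∃ r : ℕ, n = t.1 + t.2 * r}

/-- The weak recurrence property for graph recurrences: whenever there are infinitely many zeros in
a residue class, some distance occurs infinitely often between two zeros in this class. -/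
def GraphGaps : Prop :=
  ∀ (k : ℕ) (E : Finset (ℕ × ℕ)) (a : ℕ → ℂ), IsGraphRecurrence k E a →
    ∀ m p : ℕ, 0 < m → {n : ℕ | a (n * m + p) = 0}.Infinite →
      ∃ d : ℕ, 0 < d ∧ {n : ℕ | a (n * m + p) = 0 ∧ a ((n + d) * m + p) = 0}.Infinite

/-- **The dynamical Mordell-Lang conjecture is equivalent to the Skolem-Mahler-Lech property of graph
recurrences, and even to the weak recurrence property of their zeros.** -/
theorem result : (DynamicalMordellLang ↔ GraphSkolem) ∧ (DynamicalMordellLang ↔ GraphGaps) := by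
  have h12 : DynamicalMordellLang → GraphSkolem := by
    intro h k E a ha
    exact Pool.Agent.Helper87.GraphSML.graph_of_conclusion k E
      (fun N X hX Φ hΦ hloc α hα V hV => h N X hX Φ hΦ hloc α hα V hV) a ha
  have h23 : GraphSkolem → GraphGaps := by
    intro h k E a ha m p hm hinf
    have h1 : Pool.Agent.Helper87.GraphSML.FinAP {n : ℕ | a n = 0} := h k E a ha
    obtain ⟨L, n₀, hL, hper⟩ := (h1.comp m p hm).evPer
    refine ⟨L, hL, ?_⟩
    refine Set.Infinite.mono ?_ (hinf.sdiff (Set.finite_lt_nat n₀))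
    rintro n ⟨hn1, hn2⟩
    have hn3 : n₀ ≤ n := by
      by_contra hlt
      exact hn2 (not_le.mp hlt)
    exact ⟨hn1, (hper n hn3).mpr hn1⟩
  have h31 : GraphGaps → DynamicalMordellLang := by
    intro h N X hX Φ hΦ hloc α hα V hV
    refine Pool.Agent.Helper87.GraphSML.return_of_poly ?_ X Φ hΦ hloc α hα V hV
    intro H u hu G
    refine Pool.Agent.Helper87.GraphSML.finAP_of_weak H u hu ?_ G
    intro G' hinf
    obtain ⟨k, F, a, m, p, ha, hm, hval⟩ := Pool.Agent.Helper87.GraphSML.poly_to_graph H u hu G'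
    have h1 := h k F a ha m p hm (by simpa only [hval] using hinf)
    simpa only [hval] using h1
  exact ⟨⟨h12, fun h => h31 (h23 h)⟩, ⟨fun h => h23 (h12 h), h31⟩⟩

end Pool.Agent.Results.MP_295d38_ag.GraphRecurrences
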